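import Pool.Agent.H73.SBC.Rank

/-!
Modules KDF, DIM and THB (Theorem B) of the stable brick conjecture (MP_e14618_al).
-/

namespace SBC

open Dem

section

variable (K A : Type) [Field K] [Ring A] [Algebra K A] [Module.Finite K A]

omit [Module.Finite K A] in
/-- KDF -/
theorem kdf : T_KDF K A := by
  intro x hx
  have hz : ∃ Z : FMod K A, Subsingleton Z ∧ Module.Projective A Z := by
    refine ⟨{ carrier := PUnit }, inferInstance, ?_⟩
    infer_instance
  obtain ⟨Z, hZ, hZp⟩ := hz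
  have hZ0 : ∀ L : FMod K A, hd Z L = 0 := by
    intro L
    have : Subsingleton (Z →ₗ[A] L) := ⟨fun f g => LinearMap.ext fun z => by
      rw [Subsingleton.elim z 0, map_zero, map_zero]⟩
    unfold hd
    exact Module.finrank_zero_of_subsingleton
  unfold K0 at hx
  induction hx using AddSubgroup.closure_induction with
  | mem x h =>
    obtain ⟨P, hP, h⟩ := h
    refine ⟨Z, P, hZp, hP, fun L => ?_⟩
    rw [h, hZ0]
    simp
  | zero =>
    refine ⟨Z, Z, hZp, hZp, fun L => ?_⟩
    simp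
  | add x y _ _ h1 h2 =>
    obtain ⟨P1, P0, hp1, hp0, h1⟩ := h1
    obtain ⟨Q1, Q0, hq1, hq0, h2⟩ := h2
    refine ⟨P1.prod Q1, P0.prod Q0, ?_, ?_, fun L => ?_⟩
    · exact (inferInstance : Module.Projective A (P1 × Q1))
    · exact (inferInstance : Module.Projective A (P0 × Q0))
    · rw [Pi.add_apply, h1, h2, hd_prod, hd_prod]
      push_cast
      ring
  | neg x _ h1 =>
    obtain ⟨P1, P0, hp1, hp0, h1⟩ := h1
    refine ⟨P0, P1, hp0, hp1, fun L => ?_⟩
    rw [Pi.neg_apply, h1]
    ring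

/-- DIM -/
theorem dim : T_DIM K A := by
  unfold T_DIM
  let R : FMod K A := { carrier := A }
  have hR : ∀ L : FMod K A, hd R L = Module.finrank K L := by
    intro L
    unfold hd
    apply LinearEquiv.finrank_eq
    refine LinearEquiv.ofBijective ({
      toFun := fun φ => φ (1 : A)
      map_add' := fun φ ψ => rfl
      map_smul' := fun c φ => rfl } : (R →ₗ[A] L) →ₗ[K] L) ⟨?_, ?_⟩
    · intro φ ψ h
      have h' : φ (1 : A) = ψ (1 : A) := h
      refine LinearMap.ext fun (y : A) => ?_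
      have h1 : φ (y • (1 : A)) = y • φ (1 : A) := φ.map_smul y (1 : A)
      have h2 : ψ (y • (1 : A)) = y • ψ (1 : A) := ψ.map_smul y (1 : A)
      rw [smul_eq_mul, mul_one] at h1 h2
      rw [h1, h2, h']
    · intro x
      refine ⟨LinearMap.toSpanSingleton A L x, ?_⟩
      change (1 : A) • x = x
      exact one_smul A x
  refine AddSubgroup.subset_closure ⟨R, ?_, fun L => ?_⟩
  · exact (inferInstance : Module.Projective A A)
  · rw [hR]

/-- the complexes with terms `P1`, `P0` -/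
@[reducible] def cpxOf {P1 P0 : FMod K A} (h1 : Module.Projective A P1)
    (h0 : Module.Projective A P0) (v : P1 →ₗ[A] P0) : Cpx K A where
  P1 := P1
  P0 := P0
  proj1 := h1
  proj0 := h0
  d := v

/-- the bilinear map `(v, φ) ↦ φ ∘ v` -/
def compMap (P1 P0 N : FMod K A) :
    (P1 →ₗ[A] P0) →ₗ[K] ((P0 →ₗ[A] N) →ₗ[K] (P1 →ₗ[A] N)) where
  toFun v :=
    { toFun := fun φ => φ ∘ₗ v
      map_add' := fun _ _ => LinearMap.ext fun _ => rfl
      map_smul' := fun _ _ => LinearMap.ext fun _ => rfl }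
  map_add' v w := LinearMap.ext fun φ => LinearMap.ext fun x => map_add φ (v x) (w x)
  map_smul' c v := LinearMap.ext fun φ => LinearMap.ext fun x => φ.map_smul_of_tower c (v x)

/-- THB: Theorem B -/
theorem thb (hTHA : T_THA K A) (hKBD : T_KBD K A) : T_THB K A := by
  classical
  intro hinf hfin x hx
  obtain ⟨P1, P0, hp1, hp0, hxP⟩ := kdf K A x hx
  by_contra hno
  push Not at hno
  let V : Type := P1 →ₗ[A] P0
  let F : (P1 →ₗ[A] P0) → Cpx K A := fun v => cpxOf K A hp1 hp0 v
  have hcls : ∀ v L, cls (F v) L = x L := fun v L => (hxP L).symm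
  have hnr : ∀ v, ¬ (F v).Rigid := by
    intro v hv
    obtain ⟨L, hL⟩ := hno (F v) hv
    exact hL (hcls v L)
  -- the modules of Theorem A
  have hA : ∀ v : P1 →ₗ[A] P0, ∃ N : FMod K A, ee (F v) N ≠ 0 ∧
      (∃ π : P0 →ₗ[A] N, Function.Surjective π ∧ π ∘ₗ v = 0) ∧
      Stab (fun L : FMod K A => (Module.finrank K N : ℤ) * x L -
        x N * (Module.finrank K L : ℤ)) N := by
    intro v
    obtain ⟨N, -, h1, ⟨π, h2, h3⟩, h4⟩ := hTHA (F v) (hnr v)
    refine ⟨N, h1, ⟨π, h2, h3⟩, ?_⟩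
    have h5 : (fun L : FMod K A => (Module.finrank K N : ℤ) * cls (F v) L -
        cls (F v) N * (Module.finrank K L : ℤ)) =
        (fun L : FMod K A => (Module.finrank K N : ℤ) * x L -
        x N * (Module.finrank K L : ℤ)) := by
      funext L
      rw [hcls, hcls]
    rw [h5] at h4
    exact h4
  choose N hNe hNπ hNs using hA
  obtain ⟨C, hC⟩ := hKBD x hx
  -- finitely many modules up to isomorphism
  let θ : ℕ → ℤ → (FMod K A → ℤ) := fun n c L =>
    (n : ℤ) * x L - c * (Module.finrank K L : ℤ)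
  have hθ : ∀ n c, θ n c ∈ K0 K A := by
    intro n c
    have h1 : θ n c = (n : ℤ) • x - c • (fun L : FMod K A => (Module.finrank K L : ℤ)) := by
      funext L
      simp [θ]
    rw [h1]
    exact (K0 K A).sub_mem ((K0 K A).zsmul_mem hx n) ((K0 K A).zsmul_mem (dim K A) c)
  have hl : ∀ n c, ∃ l : List (FMod K A), ∀ N : FMod K A, Module.finrank K N = n →
      Stab (θ n c) N → ∃ N' ∈ l, Nonempty (N ≃ₗ[A] N') := fun n c => hfin _ (hθ n c) n
  choose l hl using hl
  let D : ℕ := Module.finrank K P0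
  let big : List (FMod K A) := (List.range (D + 1)).flatMap fun n =>
    (Finset.Icc (-(C * D : ℤ)) (C * D)).toList.flatMap fun c => l n c
  have hbig : ∀ v, ∃ N' ∈ big, Nonempty (N v ≃ₗ[A] N') := by
    intro v
    obtain ⟨π, hπ, -⟩ := hNπ v
    have hdim : Module.finrank K (N v) ≤ D := surj_finrank_le π hπ
    have hb := hC (N v)
    have hb2 : |x (N v)| ≤ C * D := by
      refine hb.trans ?_
      have : (Module.finrank K (N v) : ℤ) ≤ D := by exact_mod_cast hdim
      exact mul_le_mul_of_nonneg_left this (by positivity)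
    obtain ⟨N', hN', hiso⟩ := hl (Module.finrank K (N v)) (x (N v)) (N v) rfl (hNs v)
    refine ⟨N', ?_, hiso⟩
    rw [List.mem_flatMap]
    refine ⟨Module.finrank K (N v), List.mem_range.2 (by omega), ?_⟩
    rw [List.mem_flatMap]
    refine ⟨x (N v), ?_, hN'⟩
    rw [Finset.mem_toList, Finset.mem_Icc]
    exact abs_le.1 hb2
  -- the maximal complex
  obtain ⟨v₀, hv₀⟩ := rkc K hinf (P1 →ₗ[A] P0) big.length (fun j => P0 →ₗ[A] (big.get j))
    (fun j => P1 →ₗ[A] (big.get j)) (fun j => compMap K A P1 P0 (big.get j))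
  obtain ⟨N', hN', ⟨e⟩⟩ := hbig v₀
  obtain ⟨j, hj⟩ := List.mem_iff_get.1 hN'
  subst hj
  obtain ⟨π, hπ, hπ0⟩ := hNπ v₀
  apply hNe v₀
  rw [← van_iff_ee]
  refine Van.of_surjective (L := big.get j) ?_ e.symm.toLinearMap e.symm.surjective
  intro ψ
  let u : P0 →ₗ[A] (big.get j) := e.toLinearMap ∘ₗ π
  have hu : Function.Surjective u := e.surjective.comp hπ
  obtain ⟨v, hv⟩ := Module.projective_lifting_property u ψ hu
  have hu0 : compMap K A P1 P0 (big.get j) v₀ u = 0 := by
    change (e.toLinearMap ∘ₗ π) ∘ₗ v₀ = 0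
    rw [LinearMap.comp_assoc, hπ0, LinearMap.comp_zero]
  have hmem := rkb K hinf (P0 →ₗ[A] (big.get j)) (P1 →ₗ[A] (big.get j))
    (compMap K A P1 P0 (big.get j) v₀) (compMap K A P1 P0 (big.get j) v) (fun t => by
      have h1 : compMap K A P1 P0 (big.get j) v₀ + t • compMap K A P1 P0 (big.get j) v =
          compMap K A P1 P0 (big.get j) (v₀ + t • v) := by
        rw [map_add, map_smul]
      rw [h1]
      exact hv₀ j _) u hu0
  obtain ⟨φ, hφ⟩ := hmem
  refine ⟨φ, ?_⟩
  have h2 : compMap K A P1 P0 (big.get j) v u = ψ := hv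
  rw [← h2, ← hφ]
  rfl

end

end SBC
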