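import Pool.Agent.H5.SBC.Targets

/-!
Linear algebra for the stable brick conjecture: the rank of `a + t b` (modules RKA, RKB, RKC).
-/

namespace SBC

/-- RKA -/
theorem rka (K : Type) [Field K] : T_RKA K := by
  intro U W _ _ _ _ _ _ a b
  let R := LinearMap.range a
  -- a section of `a` over its range
  obtain ⟨s, hs⟩ := a.rangeRestrict.exists_rightInverse_of_surjective a.range_rangeRestrict
  obtain ⟨p, hp⟩ := (LinearMap.range a).subtype.exists_leftInverse_of_injective
    (LinearMap.range a).ker_subtype
  let e : Module.End K (LinearMap.range a) := p ∘ₗ b ∘ₗ s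
  have hc : ∀ t : K, p ∘ₗ (a + t • b) ∘ₗ s = LinearMap.id + t • e := by
    intro t
    ext y : 1
    have h1 : a (s y) = (LinearMap.range a).subtype y := by
      have := LinearMap.congr_fun hs y
      exact congrArg Subtype.val this
    have h2 : p ((LinearMap.range a).subtype y) = y := LinearMap.congr_fun hp y
    simp only [LinearMap.comp_apply, LinearMap.add_apply, LinearMap.smul_apply, LinearMap.id_apply,
      e, map_add, map_smul, h1, h2]
  have hsub : {t : K | Module.finrank K (LinearMap.range (a + t • b)) <
      Module.finrank K (LinearMap.range a)} ⊆ (fun t : K => -t⁻¹) ⁻¹' {μ | e.HasEigenvalue μ} := by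
    intro t ht
    by_contra hne
    have hne' : ¬ e.HasEigenvalue (-t⁻¹) := hne
    have hinj : Function.Injective (LinearMap.id + t • e : Module.End K (LinearMap.range a)) := by
      rw [injective_iff_map_eq_zero]
      intro y hy
      by_contra hy0
      apply hne'
      have h1 : y + t • e y = 0 := hy
      have ht0 : t ≠ 0 := by
        rintro rfl
        rw [zero_smul, add_zero] at h1
        exact hy0 h1
      refine Module.End.hasEigenvalue_of_hasEigenvector (x := y) ⟨?_, hy0⟩
      rw [Module.End.mem_eigenspace_iff]
      have h2 : t • e y = -y := by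
        rw [add_comm] at h1
        exact eq_neg_of_add_eq_zero_left h1
      have h3 : e y = t⁻¹ • (t • e y) := by rw [smul_smul, inv_mul_cancel₀ ht0, one_smul]
      rw [h3, h2, smul_neg, neg_smul]
    have hsurj : Function.Surjective
        (LinearMap.id + t • e : Module.End K (LinearMap.range a)) :=
      LinearMap.injective_iff_surjective.1 hinj
    have hp' : Function.Surjective (p ∘ₗ (LinearMap.range (a + t • b)).subtype) := by
      intro y
      obtain ⟨z, hz⟩ := hsurj y
      rw [← hc t] at hz
      exact ⟨⟨(a + t • b) (s z), LinearMap.mem_range_self _ _⟩, hz⟩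
    have h4 := LinearMap.finrank_le_finrank_of_surjective hp'
    have h5 : Module.finrank K (LinearMap.range (a + t • b)) <
      Module.finrank K (LinearMap.range a) := ht
    omega
  refine Set.Finite.subset (Set.Finite.preimage ?_ e.finite_hasEigenvalue) hsub
  intro x _ y _ hxy
  exact inv_injective (neg_injective hxy)

/-- RKB -/
theorem rkb (K : Type) [Field K] : T_RKB K := by
  intro hK U W _ _ _ _ _ _ a b hle u hu
  by_contra hbu
  let R := LinearMap.range a
  obtain ⟨s, hs⟩ := a.rangeRestrict.exists_rightInverse_of_surjective a.range_rangeRestrict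
  have hs' : ∀ y, a (s y) = y := fun y => congrArg Subtype.val (LinearMap.congr_fun hs y)
  let a' : (LinearMap.range a × K) →ₗ[K] W :=
    LinearMap.coprod (LinearMap.range a).subtype (LinearMap.toSpanSingleton K W (b u))
  let b' : (LinearMap.range a × K) →ₗ[K] W := LinearMap.coprod (b ∘ₗ s) 0
  have ha' : ∀ x, a' x = x.1 + x.2 • b u := fun x => rfl
  have hb' : ∀ x, b' x = b (s x.1) := fun x => by
    change b (s x.1) + (0 : K →ₗ[K] W) x.2 = _
    rw [LinearMap.zero_apply, add_zero]
  have hinj : Function.Injective a' := by
    rw [injective_iff_map_eq_zero]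
    rintro ⟨y, c⟩ h
    have h1 : (y : W) + c • b u = 0 := h
    have hc : c = 0 := by
      by_contra hc
      apply hbu
      have h2 : b u = -(c⁻¹ • (y : W)) := by
        have h3 : c • b u = -(y : W) := by
          rw [add_comm] at h1
          exact eq_neg_of_add_eq_zero_left h1
        have h4 : b u = c⁻¹ • (c • b u) := by rw [smul_smul, inv_mul_cancel₀ hc, one_smul]
        rw [h4, h3, smul_neg]
      rw [h2]
      exact Submodule.neg_mem _ (Submodule.smul_mem _ _ y.2)
    subst hc
    rw [zero_smul, add_zero] at h1
    exact Prod.ext (Subtype.ext h1) rfl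
  have hfin := rka K (LinearMap.range a × K) W a' b'
  have hrk : Module.finrank K (LinearMap.range a') = Module.finrank K (LinearMap.range a) + 1 := by
    rw [LinearMap.finrank_range_of_inj hinj, Module.finrank_prod, Module.finrank_self]
  obtain ⟨t, ht⟩ := (hfin.union (Set.finite_singleton (0 : K))).exists_notMem
  simp only [Set.mem_union, Set.mem_ofPred_eq, Set.mem_singleton_iff, not_or, not_lt] at ht
  obtain ⟨h1, h2⟩ := ht
  have hsub : LinearMap.range (a' + t • b') ≤ LinearMap.range (a + t • b) := by
    rintro _ ⟨x, rfl⟩
    refine ⟨s x.1 + (x.2 * t⁻¹) • u, ?_⟩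
    have h6 : t • ((x.2 * t⁻¹) • b u) = x.2 • b u := by
      rw [smul_smul, show t * (x.2 * t⁻¹) = x.2 by field_simp]
    change (a + t • b) (s x.1 + (x.2 * t⁻¹) • u) = a' x + t • b' x
    rw [ha', hb', LinearMap.add_apply, LinearMap.smul_apply, map_add, map_add, map_smul, map_smul,
      hs', hu, smul_zero, add_zero, smul_add, h6]
    abel
  have h3 := Submodule.finrank_mono hsub
  have h4 := hle t
  omega

/-- RKC -/
theorem rkc (K : Type) [Field K] : T_RKC K := by
  intro hK V _ _ m U W _ _ _ _ _ _ L
  -- a maximal vector for each `j`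
  have hmax : ∀ j, ∃ v₁ : V, ∀ v, Module.finrank K (LinearMap.range (L j v)) ≤
      Module.finrank K (LinearMap.range (L j v₁)) := by
    intro j
    have hb : BddAbove (Set.range fun v : V => Module.finrank K (LinearMap.range (L j v))) := by
      refine ⟨Module.finrank K (W j), ?_⟩
      rintro _ ⟨v, rfl⟩
      exact Submodule.finrank_le _
    have hne : (Set.range fun v : V => Module.finrank K (LinearMap.range (L j v))).Nonempty :=
      ⟨_, ⟨0, rfl⟩⟩
    obtain ⟨v₁, hv₁⟩ := Nat.sSup_mem hne hb
    refine ⟨v₁, fun v => ?_⟩
    have := le_csSup hb ⟨v, rfl⟩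
    rw [← hv₁] at this
    exact this
  choose w hw using hmax
  have key : ∀ s : Finset (Fin m), ∃ v₀ : V, ∀ j ∈ s, ∀ v,
      Module.finrank K (LinearMap.range (L j v)) ≤
        Module.finrank K (LinearMap.range (L j v₀)) := by
    classical
    intro s
    induction s using Finset.induction_on with
    | empty => exact ⟨0, by simp⟩
    | insert j s hj ih =>
      obtain ⟨v₀, hv₀⟩ := ih
      have hf1 : (⋃ i ∈ s, {t : K | Module.finrank K (LinearMap.range (L i v₀ + t • L i (w j))) <
          Module.finrank K (LinearMap.range (L i v₀))}).Finite :=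
        s.finite_toSet.biUnion fun i _ => rka K (U i) (W i) (L i v₀) (L i (w j))
      have hf2 : ((fun t : K => t⁻¹) ⁻¹' {t : K | Module.finrank K
          (LinearMap.range (L j (w j) + t • L j v₀)) <
            Module.finrank K (LinearMap.range (L j (w j)))}).Finite :=
        (rka K (U j) (W j) (L j (w j)) (L j v₀)).preimage inv_injective.injOn
      obtain ⟨t, ht⟩ := ((hf1.union hf2).union (Set.finite_singleton (0 : K))).exists_notMem
      simp only [Set.mem_union, Set.mem_iUnion, Set.mem_ofPred_eq, Set.mem_singleton_iff, not_or,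
        not_exists, not_lt, Set.mem_preimage] at ht
      obtain ⟨⟨h1, h2⟩, h3⟩ := ht
      refine ⟨v₀ + t • w j, ?_⟩
      intro i hi v
      rcases Finset.mem_insert.1 hi with rfl | hi
      · have h4 : L i (v₀ + t • w i) = t • (L i (w i) + t⁻¹ • L i v₀) := by
          rw [map_add, map_smul, smul_add, smul_smul, mul_inv_cancel₀ h3, one_smul, add_comm]
        rw [h4, LinearMap.range_smul _ _ h3]
        exact (hw i v).trans h2
      · have h4 : L i (v₀ + t • w j) = L i v₀ + t • L i (w j) := by
          rw [map_add, map_smul]
        rw [h4]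
        exact (hv₀ i hi v).trans (h1 i hi)
  obtain ⟨v₀, hv₀⟩ := key Finset.univ
  exact ⟨v₀, fun j v => hv₀ j (Finset.mem_univ j) v⟩

end SBC
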